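import Mathlib

/-!
# The image of a continuous kernel operator on a co-sober space need not be co-sober

`Y` is a countable compact `T₁` space in which compact sets are closed and any two nonempty open
sets meet.  `X = Y × ω` carries a topology in which every point has the form of a chain, and
in which it is co-sober, while `(y, n) ↦ (y, 0)` is a continuous kernel operator with image
homeomorphic to `Y`.
-/

open Set Topology

namespace Pool.Agent.Results.MP_1ae613_gt.KernelImage

universe u

/-- `↑x = {y : x ≤ y}` for the specialization order `x ≤ y ↔ x ∈ cl {y}`. -/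
def upSet {X : Type u} [TopologicalSpace X] (x : X) : Set X := {y | x ∈ closure {y}}

/-- A set is saturated if it is the intersection of the open sets containing it. -/
def Saturated {X : Type u} [TopologicalSpace X] (K : Set X) : Prop :=
  K = ⋂₀ {O | IsOpen O ∧ K ⊆ O}

/-- `K(X)`: the compact saturated subsets. -/
def CS {X : Type u} [TopologicalSpace X] (K : Set X) : Prop := IsCompact K ∧ Saturated K

/-- k-irreducible members of `K(X)`. -/
def KIrreducible {X : Type u} [TopologicalSpace X] (G : Set X) : Prop :=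
  G.Nonempty ∧ CS G ∧ ∀ K₁ K₂ : Set X, CS K₁ → CS K₂ → K₁ ∪ K₂ = G → K₁ = G ∨ K₂ = G

/-- Co-sober spaces: each k-irreducible member of `K(X)` is of the form `↑x`. -/
def CoSober (X : Type u) [TopologicalSpace X] : Prop :=
  ∀ G : Set X, KIrreducible G → ∃ x : X, G = upSet x

/-! ### The countable space `Y` -/

/-- the point `(i, j)` of the piece `T_{x,y}` -/
def pt (x y i j : ℕ) : ℕ := Nat.pair (Nat.pair x y) (Nat.pair i j)

theorem pt_surj (z : ℕ) : ∃ x y i j, z = pt x y i j := by
  refine ⟨(Nat.unpair (Nat.unpair z).1).1, (Nat.unpair (Nat.unpair z).1).2,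
    (Nat.unpair (Nat.unpair z).2).1, (Nat.unpair (Nat.unpair z).2).2, ?_⟩
  simp [pt, Nat.pair_unpair]

theorem pt_inj {x y i j x' y' i' j' : ℕ} (h : pt x y i j = pt x' y' i' j') :
    x = x' ∧ y = y' ∧ i = i' ∧ j = j' := by
  have h1 := Nat.pair_eq_pair.1 h
  have h2 := Nat.pair_eq_pair.1 h1.1
  have h3 := Nat.pair_eq_pair.1 h1.2
  exact ⟨h2.1, h2.2, h3.1, h3.2⟩

/-- closed subsets of `Y` -/
def Cl (C : Set ℕ) : Prop :=
  (∀ x y i, {j | pt x y i j ∈ C}.Infinite → y ∈ C) ∧
  (∀ x y, {i | ∃ j, pt x y i j ∈ C}.Infinite → x ∈ C) ∧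
  ({p : ℕ × ℕ | ∃ i j, pt p.1 p.2 i j ∈ C}.Infinite → 0 ∈ C)

/-- The space `Y`. -/
def Y : Type := ℕ

instance : TopologicalSpace Y :=
  TopologicalSpace.ofClosed (X := ℕ) {C | Cl C}
    (by
      refine ⟨?_, ?_, ?_⟩
      · intro x y i h
        simp at h
      · intro x y h
        simp at h
      · intro h
        simp at h)
    (by
      intro A hA
      refine ⟨?_, ?_, ?_⟩
      · intro x y i h C hC
        exact (hA hC).1 x y i
          (Set.Infinite.mono (fun j (hj : pt x y i j ∈ ⋂₀ A) => hj C hC) h)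
      · intro x y h C hC
        refine (hA hC).2.1 x y (h.mono ?_)
        rintro i ⟨j, hj⟩
        exact ⟨j, hj C hC⟩
      · intro h C hC
        refine (hA hC).2.2 (h.mono ?_)
        rintro p ⟨i, j, hj⟩
        exact ⟨i, j, hj C hC⟩)
    (by
      intro A hA B hB
      refine ⟨?_, ?_, ?_⟩
      · intro x y i h
        have : {j | pt x y i j ∈ A ∪ B} = {j | pt x y i j ∈ A} ∪ {j | pt x y i j ∈ B} := rfl
        rw [this, Set.infinite_union] at h
        rcases h with h | h
        · exact Or.inl (hA.1 x y i h)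
        · exact Or.inr (hB.1 x y i h)
      · intro x y h
        have : {i | ∃ j, pt x y i j ∈ A ∪ B} =
            {i | ∃ j, pt x y i j ∈ A} ∪ {i | ∃ j, pt x y i j ∈ B} := by
          ext i
          simp only [Set.mem_ofPred_eq, Set.mem_union, exists_or]
        rw [this, Set.infinite_union] at h
        rcases h with h | h
        · exact Or.inl (hA.2.1 x y h)
        · exact Or.inr (hB.2.1 x y h)
      · intro h
        have : {p : ℕ × ℕ | ∃ i j, pt p.1 p.2 i j ∈ A ∪ B} =
            {p : ℕ × ℕ | ∃ i j, pt p.1 p.2 i j ∈ A} ∪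
              {p : ℕ × ℕ | ∃ i j, pt p.1 p.2 i j ∈ B} := by
          ext i
          simp only [Set.mem_ofPred_eq, Set.mem_union, exists_or]
        rw [this, Set.infinite_union] at h
        rcases h with h | h
        · exact Or.inl (hA.2.2 h)
        · exact Or.inr (hB.2.2 h))

theorem isClosed_Y {C : Set Y} : IsClosed C ↔ Cl C := by
  rw [← isOpen_compl_iff]
  exact iff_of_eq (congrArg Cl (compl_compl (α := Set ℕ) C))

/-- the points of `Y` as an element of the type -/
def ptY (x y i j : ℕ) : Y := pt x y i j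

theorem finite_closed {C : Set Y} (hC : C.Finite) : IsClosed C := by
  rw [isClosed_Y]
  refine ⟨?_, ?_, ?_⟩
  · intro x y i h
    exact absurd (Set.Finite.preimage (f := fun j => pt x y i j)
      (fun a _ b _ hab => (pt_inj hab).2.2.2) hC) h
  · intro x y h
    apply absurd _ h
    have : {i | ∃ j, pt x y i j ∈ C} ⊆
        (fun z : ℕ => (Nat.unpair (Nat.unpair z).2).1) '' C := by
      rintro i ⟨j, hj⟩
      exact ⟨_, hj, by simp [pt]⟩
    exact (hC.image _).subset this
  · intro h
    apply absurd _ h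
    have : {p : ℕ × ℕ | ∃ i j, pt p.1 p.2 i j ∈ C} ⊆
        (fun z : ℕ => Nat.unpair (Nat.unpair z).1) '' C := by
      rintro p ⟨i, j, hj⟩
      exact ⟨_, hj, by simp [pt]⟩
    exact (hC.image _).subset this

instance : T1Space Y := ⟨fun _ => finite_closed (Set.finite_singleton _)⟩

/-- `Y` is compact. -/
theorem compact_Y : IsCompact (Set.univ : Set Y) := by
  classical
  rw [isCompact_iff_finite_subcover]
  intro ι U hU hcov
  have hpick : ∀ y : Y, ∃ i, y ∈ U i := fun y => by
    simpa using hcov (Set.mem_univ y)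
  choose g hg using hpick
  have hUc : ∀ i, Cl ((U i)ᶜ : Set Y) := fun i => isClosed_Y.1 (hU i).isClosed_compl
  -- finitely many pieces left
  have h0 : {p : ℕ × ℕ | ∃ i j, pt p.1 p.2 i j ∈ ((U (g (0 : ℕ)))ᶜ : Set Y)}.Finite := by
    by_contra h
    exact (hUc (g (0 : ℕ))).2.2 h (hg (0 : ℕ))
  have hpiece : ∀ p : ℕ × ℕ, ∃ t : Finset ι, ∀ i j, ptY p.1 p.2 i j ∈ ⋃ s ∈ t, U s := by
    rintro ⟨x, y⟩
    have hcol : {i | ∃ j, pt x y i j ∈ ((U (g x))ᶜ : Set Y)}.Finite := by
      by_contra h
      exact (hUc (g x)).2.1 x y h (hg x)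
    have hrow : ∀ i, {j | pt x y i j ∈ ((U (g y))ᶜ : Set Y)}.Finite := by
      intro i
      by_contra h
      exact (hUc (g y)).1 x y i h (hg y)
    have hfin : (⋃ i ∈ hcol.toFinset, (fun j => ptY x y i j) ''
        {j | pt x y i j ∈ ((U (g y))ᶜ : Set Y)}).Finite :=
      Set.Finite.biUnion (Finset.finite_toSet _) fun i _ => (hrow i).image _
    refine ⟨{g x, g y} ∪ hfin.toFinset.image g, ?_⟩
    intro i j
    by_cases h1 : ptY x y i j ∈ U (g x)
    · exact Set.mem_biUnion (x := g x) (by simp) h1
    · by_cases h2 : ptY x y i j ∈ U (g y)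
      · exact Set.mem_biUnion (x := g y) (by simp) h2
      · have hmem : ptY x y i j ∈ hfin.toFinset := by
          rw [Set.Finite.mem_toFinset]
          refine Set.mem_biUnion (x := i) ?_ ⟨j, h2, rfl⟩
          simp only [Finset.mem_coe, Set.Finite.mem_toFinset, Set.mem_ofPred_eq]
          exact ⟨j, h1⟩
        refine Set.mem_biUnion (x := g (ptY x y i j)) ?_ (hg _)
        simp only [Finset.coe_union, Finset.coe_image, Set.mem_union, Set.mem_image,
          Finset.mem_coe]
        exact Or.inr ⟨_, hmem, rfl⟩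
  choose t ht using hpiece
  refine ⟨{g (0 : ℕ)} ∪ h0.toFinset.biUnion t, ?_⟩
  intro z _
  obtain ⟨x, y, i, j, rfl⟩ := pt_surj z
  by_cases h1 : ptY x y i j ∈ U (g (0 : ℕ))
  · exact Set.mem_biUnion (x := g (0 : ℕ)) (by simp) h1
  · have := ht (x, y) i j
    simp only [Set.mem_iUnion] at this
    obtain ⟨s, hs, hs'⟩ := this
    refine Set.mem_biUnion (x := s) ?_ hs'
    simp only [Finset.coe_union, Set.mem_union, Finset.mem_coe, Finset.mem_biUnion,
      Set.Finite.mem_toFinset, Set.mem_ofPred_eq]
    exact Or.inr ⟨(x, y), ⟨i, j, h1⟩, hs⟩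

/-- If `A'` is infinite, `A' ⊆ A`, `p ∉ A` and all `B ∪ {p}`, `B ⊆ A'`, are closed, then `A` is
not compact. -/
theorem not_compact_of {A A' : Set Y} {p : Y} (hinf : A'.Infinite) (hsub : A' ⊆ A) (hp : p ∉ A)
    (hcl : ∀ B ⊆ A', IsClosed (insert p B)) : ¬ IsCompact A := by
  classical
  intro hA
  rw [isCompact_iff_finite_subcover] at hA
  obtain ⟨t, ht⟩ := hA (fun a : Y => (insert p (A' \ {a}) : Set Y)ᶜ)
    (fun a => (hcl _ Set.sdiff_subset).isOpen_compl)
    (by
      intro a ha
      refine Set.mem_iUnion.2 ⟨a, ?_⟩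
      simp only [Set.mem_compl_iff, Set.mem_insert_iff, Set.mem_sdiff, Set.mem_singleton_iff,
        not_true_eq_false, and_false, or_false]
      rintro rfl
      exact hp ha)
  obtain ⟨b, hb, hbt⟩ := hinf.exists_notMem_finset t
  have := ht (hsub hb)
  simp only [Set.mem_iUnion] at this
  obtain ⟨a, hat, hba⟩ := this
  apply hba
  right
  refine ⟨hb, ?_⟩
  rintro rfl
  exact hbt hat

/-- compact subsets of `Y` are closed -/
theorem closed_of_compact {A : Set Y} (hA : IsCompact A) : IsClosed A := by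
  classical
  by_contra hcl
  rw [isClosed_Y] at hcl
  unfold Cl at hcl
  rw [not_and_or, not_and_or] at hcl
  rcases hcl with h | h | h
  · push Not at h
    obtain ⟨x, y, i, hinf, hy⟩ := h
    refine not_compact_of (A := A) (A' := (fun j => ptY x y i j) '' {j | pt x y i j ∈ A})
      (p := y) ?_ ?_ hy ?_ hA
    · exact hinf.image fun a _ b _ hab => (pt_inj hab).2.2.2
    · rintro _ ⟨j, hj, rfl⟩
      exact hj
    · intro B hB
      rw [isClosed_Y]
      have hB' : ∀ z ∈ B, ∃ j, z = pt x y i j := by
        intro z hz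
        obtain ⟨j, _, hj⟩ := hB hz
        exact ⟨j, hj.symm⟩
      refine ⟨?_, ?_, ?_⟩
      · intro x' y' i' hinf'
        have : ∃ j', pt x' y' i' j' ∈ B := by
          obtain ⟨j', hj'⟩ := (hinf'.sdiff
            (Set.Finite.preimage (f := fun j => pt x' y' i' j)
              (fun a _ b _ hab => (pt_inj hab).2.2.2) (Set.finite_singleton (y : ℕ)))).nonempty
          refine ⟨j', ?_⟩
          rcases hj'.1 with h1 | h1
          · exact absurd h1 hj'.2
          · exact h1
        obtain ⟨j', hj'⟩ := this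
        obtain ⟨j, hj⟩ := hB' _ hj'
        left
        exact (pt_inj hj).2.1
      · intro x' y' hinf'
        exfalso
        apply hinf'
        have : {i' | ∃ j', pt x' y' i' j' ∈ (insert y B : Set ℕ)} ⊆
            {(Nat.unpair (Nat.unpair y).2).1, i} := by
          rintro i' ⟨j', hj'⟩
          rcases hj' with h1 | h1
          · left
            rw [← h1]
            simp [pt]
          · right
            obtain ⟨j, hj⟩ := hB' _ h1
            exact (pt_inj hj).2.2.1
        exact (Set.toFinite _).subset this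
      · intro hinf'
        exfalso
        apply hinf'
        have : {p' : ℕ × ℕ | ∃ i' j', pt p'.1 p'.2 i' j' ∈ (insert y B : Set ℕ)} ⊆
            {Nat.unpair (Nat.unpair y).1, (x, y)} := by
          rintro p' ⟨i', j', hj'⟩
          rcases hj' with h1 | h1
          · left
            rw [← h1]
            simp [pt]
          · right
            obtain ⟨j, hj⟩ := hB' _ h1
            have := pt_inj hj
            exact Prod.ext this.1 this.2.1
        exact (Set.toFinite _).subset this
  · push Not at h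
    obtain ⟨x, y, hinf, hx⟩ := h
    have hch : ∀ i : {i | ∃ j, pt x y i j ∈ A}, ∃ j, pt x y i j ∈ A := fun i => i.2
    choose f hf using hch
    refine not_compact_of (A := A)
      (A' := Set.range (fun i : {i | ∃ j, pt x y i j ∈ A} => ptY x y i (f i)))
      (p := x) ?_ ?_ hx ?_ hA
    · have : Infinite {i | ∃ j, pt x y i j ∈ A} := hinf.to_subtype
      exact Set.infinite_range_of_injective fun a b hab => Subtype.ext (pt_inj hab).2.2.1
    · rintro _ ⟨i, rfl⟩
      exact hf i
    · intro B hB
      rw [isClosed_Y]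
      have hB' : ∀ z ∈ B, ∃ i : {i | ∃ j, pt x y i j ∈ A}, z = pt x y i (f i) := by
        intro z hz
        obtain ⟨i, hi⟩ := hB hz
        exact ⟨i, hi.symm⟩
      refine ⟨?_, ?_, ?_⟩
      · intro x' y' i' hinf'
        exfalso
        apply hinf'
        have : ∃ j0, ∀ j', pt x' y' i' j' ∈ B → j' = j0 := by
          by_cases hex : ∃ j', pt x' y' i' j' ∈ B
          · obtain ⟨j1, hj1⟩ := hex
            refine ⟨j1, fun j' hj' => ?_⟩
            obtain ⟨i1, e1⟩ := hB' _ hj1
            obtain ⟨i2, e2⟩ := hB' _ hj'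
            have q1 := pt_inj e1
            have q2 := pt_inj e2
            have : i1 = i2 := Subtype.ext (q1.2.2.1.symm.trans q2.2.2.1)
            subst this
            rw [q2.2.2.2, q1.2.2.2]
          · exact ⟨0, fun j' hj' => absurd ⟨j', hj'⟩ hex⟩
        obtain ⟨j0, hj0⟩ := this
        have : {j' | pt x' y' i' j' ∈ (insert x B : Set ℕ)} ⊆
            {(Nat.unpair (Nat.unpair x).2).2, j0} := by
          intro j' hj'
          rcases hj' with h1 | h1
          · left
            rw [← h1]
            simp [pt]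
          · right
            exact hj0 j' h1
        exact (Set.toFinite _).subset this
      · intro x' y' hinf'
        have : ∃ i' j', pt x' y' i' j' ∈ B := by
          obtain ⟨i', hi', hi''⟩ := (hinf'.sdiff
            (Set.finite_singleton (Nat.unpair (Nat.unpair x).2).1)).nonempty
          obtain ⟨j', hj'⟩ := hi'
          refine ⟨i', j', ?_⟩
          rcases hj' with h1 | h1
          · exfalso
            apply hi''
            rw [← h1]
            simp [pt]
          · exact h1
        obtain ⟨i', j', hj'⟩ := this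
        obtain ⟨i, hi⟩ := hB' _ hj'
        left
        exact (pt_inj hi).1
      · intro hinf'
        exfalso
        apply hinf'
        have : {p' : ℕ × ℕ | ∃ i' j', pt p'.1 p'.2 i' j' ∈ (insert x B : Set ℕ)} ⊆
            {Nat.unpair (Nat.unpair x).1, (x, y)} := by
          rintro p' ⟨i', j', hj'⟩
          rcases hj' with h1 | h1
          · left
            rw [← h1]
            simp [pt]
          · right
            obtain ⟨i, hi⟩ := hB' _ h1
            have := pt_inj hi
            exact Prod.ext this.1 this.2.1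
        exact (Set.toFinite _).subset this
  · push Not at h
    obtain ⟨hinf, h0⟩ := h
    have hch : ∀ p : {p : ℕ × ℕ | ∃ i j, pt p.1 p.2 i j ∈ A}, ∃ q : ℕ × ℕ,
        pt p.1.1 p.1.2 q.1 q.2 ∈ A := fun p => by
      obtain ⟨i, j, hij⟩ := p.2
      exact ⟨(i, j), hij⟩
    choose f hf using hch
    refine not_compact_of (A := A)
      (A' := Set.range (fun p : {p : ℕ × ℕ | ∃ i j, pt p.1 p.2 i j ∈ A} =>
        ptY p.1.1 p.1.2 (f p).1 (f p).2))
      (p := (0 : ℕ)) ?_ ?_ h0 ?_ hA
    · have : Infinite {p : ℕ × ℕ | ∃ i j, pt p.1 p.2 i j ∈ A} := hinf.to_subtype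
      refine Set.infinite_range_of_injective fun a b hab => ?_
      have := pt_inj hab
      exact Subtype.ext (Prod.ext this.1 this.2.1)
    · rintro _ ⟨p, rfl⟩
      exact hf p
    · intro B hB
      rw [isClosed_Y]
      have hB' : ∀ z ∈ B, ∃ p : {p : ℕ × ℕ | ∃ i j, pt p.1 p.2 i j ∈ A},
          z = pt p.1.1 p.1.2 (f p).1 (f p).2 := by
        intro z hz
        obtain ⟨p, hp⟩ := hB hz
        exact ⟨p, hp.symm⟩
      have huniq : ∀ x' y', ∃ q0 : ℕ × ℕ, ∀ i' j', pt x' y' i' j' ∈ B → (i', j') = q0 := by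
        intro x' y'
        by_cases hex : ∃ q : ℕ × ℕ, pt x' y' q.1 q.2 ∈ B
        · obtain ⟨q1, hq1⟩ := hex
          refine ⟨q1, fun i' j' hj' => ?_⟩
          obtain ⟨p1, e1⟩ := hB' _ hq1
          obtain ⟨p2, e2⟩ := hB' _ hj'
          have r1 := pt_inj e1
          have r2 := pt_inj e2
          have : p1 = p2 :=
            Subtype.ext (Prod.ext (r1.1.symm.trans r2.1) (r1.2.1.symm.trans r2.2.1))
          subst this
          exact Prod.ext (r2.2.2.1.trans r1.2.2.1.symm) (r2.2.2.2.trans r1.2.2.2.symm)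
        · exact ⟨(0, 0), fun i' j' hj' => absurd ⟨(i', j'), hj'⟩ hex⟩
      refine ⟨?_, ?_, fun _ => Or.inl rfl⟩
      · intro x' y' i' hinf'
        exfalso
        apply hinf'
        obtain ⟨q0, hq0⟩ := huniq x' y'
        have : {j' | pt x' y' i' j' ∈ (insert 0 B : Set ℕ)} ⊆
            {(Nat.unpair (Nat.unpair 0).2).2, q0.2} := by
          intro j' hj'
          rcases hj' with h1 | h1
          · left
            rw [← h1]
            simp [pt]
          · right
            rw [← hq0 i' j' h1]
            rfl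
        exact (Set.toFinite _).subset this
      · intro x' y' hinf'
        exfalso
        apply hinf'
        obtain ⟨q0, hq0⟩ := huniq x' y'
        have : {i' | ∃ j', pt x' y' i' j' ∈ (insert 0 B : Set ℕ)} ⊆
            {(Nat.unpair (Nat.unpair 0).2).1, q0.1} := by
          rintro i' ⟨j', hj'⟩
          rcases hj' with h1 | h1
          · left
            rw [← h1]
            simp [pt]
          · right
            rw [← hq0 i' j' h1]
            rfl
        exact (Set.toFinite _).subset this

/-- any two nonempty open subsets of `Y` meet -/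
theorem hyperconnected {U V : Set Y} (hU : IsOpen U) (hV : IsOpen V) (hUn : U.Nonempty)
    (hVn : V.Nonempty) : (U ∩ V).Nonempty := by
  obtain ⟨x, hx⟩ := hUn
  obtain ⟨y, hy⟩ := hVn
  have hUc := isClosed_Y.1 hU.isClosed_compl
  have hVc := isClosed_Y.1 hV.isClosed_compl
  have hcol : {i | ∃ j, pt x y i j ∈ (Uᶜ : Set Y)}.Finite := by
    by_contra h
    exact hUc.2.1 x y h hx
  obtain ⟨i, hi⟩ := hcol.infinite_compl.nonempty
  have hrow : {j | pt x y i j ∈ (Vᶜ : Set Y)}.Finite := by
    by_contra h
    exact hVc.1 x y i h hy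
  obtain ⟨j, hj⟩ := hrow.infinite_compl.nonempty
  refine ⟨ptY x y i j, ?_, ?_⟩
  · by_contra h
    exact hi ⟨j, h⟩
  · by_contra h
    exact hj h

/-! ### The co-sober space `X = Y × ω` -/

section X

variable (Z : Type) [TopologicalSpace Z]

/-- The underlying set of `X`. -/
def XX : Type := Z × ℕ

/-- open subsets of `X` -/
def OpX (O : Set (Z × ℕ)) : Prop :=
  (∀ m n, (m, n) ∈ O → (m, n + 1) ∈ O) ∧
  (∀ m n, (m, n) ∈ O → ∃ U : Set Z, IsOpen U ∧ m ∈ U ∧ ∀ m' ∈ U, m' ≠ m → ∀ l, (m', l) ∈ O)

instance : TopologicalSpace (XX Z) where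
  IsOpen O := OpX Z O
  isOpen_univ := ⟨fun _ _ _ => trivial, fun _ _ _ => ⟨univ, isOpen_univ, trivial,
    fun _ _ _ _ => trivial⟩⟩
  isOpen_inter := by
    intro O P hO hP
    refine ⟨fun m n h => ⟨hO.1 m n h.1, hP.1 m n h.2⟩, fun m n h => ?_⟩
    obtain ⟨U, hU, hmU, h1⟩ := hO.2 m n h.1
    obtain ⟨V, hV, hmV, h2⟩ := hP.2 m n h.2
    exact ⟨U ∩ V, hU.inter hV, ⟨hmU, hmV⟩, fun m' hm' hne l =>
      ⟨h1 m' hm'.1 hne l, h2 m' hm'.2 hne l⟩⟩
  isOpen_sUnion := by
    intro A hA
    refine ⟨?_, ?_⟩
    · rintro m n ⟨O, hO, h⟩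
      exact ⟨O, hO, (hA O hO).1 m n h⟩
    · rintro m n ⟨O, hO, h⟩
      obtain ⟨U, hU, hmU, h1⟩ := (hA O hO).2 m n h
      exact ⟨U, hU, hmU, fun m' hm' hne l => ⟨O, hO, h1 m' hm' hne l⟩⟩

variable {Z}

theorem isOpen_XX {O : Set (XX Z)} : IsOpen O ↔ OpX Z O := Iff.rfl

theorem isOpen_basic [T1Space Z] (m : Z) (n : ℕ) (U : Set Z) (hU : IsOpen U) :
    IsOpen ({q : XX Z | (q.1 = m ∧ n ≤ q.2) ∨ (q.1 ∈ U ∧ q.1 ≠ m)} : Set (XX Z)) ↔
      (m ∈ U ∨ IsOpen (insert m U)) ∨
      IsOpen ({q : XX Z | (q.1 = m ∧ n ≤ q.2) ∨ (q.1 ∈ U ∧ q.1 ≠ m)} : Set (XX Z)) := by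
  constructor
  · exact Or.inr
  · rintro (h | h)
    · have key : ∃ W : Set Z, IsOpen W ∧ m ∈ W ∧ ∀ m' ∈ W, m' ≠ m → m' ∈ U := by
        rcases h with h | h
        · exact ⟨U, hU, h, fun m' hm' _ => hm'⟩
        · exact ⟨_, h, Set.mem_insert _ _, fun m' hm' hne => by
            rcases hm' with h1 | h1
            · exact absurd h1 hne
            · exact h1⟩
      obtain ⟨W, hW, hmW, hWU⟩ := key
      refine ⟨?_, ?_⟩
      · rintro m' n' (⟨h1, h2⟩ | ⟨h1, h2⟩)
        · exact Or.inl ⟨h1, Nat.le_succ_of_le h2⟩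
        · exact Or.inr ⟨h1, h2⟩
      · rintro m' n' (⟨h1, h2⟩ | ⟨h1, h2⟩)
        · refine ⟨W, hW, ?_, fun m'' hm'' hne l => Or.inr ⟨hWU _ hm'' ?_, ?_⟩⟩
          · change m' = m at h1
            rw [h1]
            exact hmW
          · change m' = m at h1
            rw [← h1]
            exact hne
          · change m' = m at h1
            change m'' ≠ m
            rw [← h1]
            exact hne
        · refine ⟨U \ {m}, hU.sdiff isClosed_singleton, ⟨h1, h2⟩,
            fun m'' hm'' _ l => Or.inr ⟨hm''.1, hm''.2⟩⟩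
    · exact h

theorem isOpen_nb [T1Space Z] {m : Z} (n : ℕ) {U : Set Z} (hU : IsOpen U) (hm : m ∈ U) :
    IsOpen ({q : XX Z | (q.1 = m ∧ n ≤ q.2) ∨ (q.1 ∈ U ∧ q.1 ≠ m)} : Set (XX Z)) :=
  (isOpen_basic m n U hU).2 (Or.inl (Or.inl hm))

theorem open_mono {O : Set (XX Z)} (hO : IsOpen O) {m : Z} {n n' : ℕ} (h : n ≤ n')
    (hmem : ((m, n) : XX Z) ∈ O) : ((m, n') : XX Z) ∈ O := by
  induction h with
  | refl => exact hmem
  | step _ ih => exact (isOpen_XX.1 hO).1 _ _ ih

/-- the specialization order of `X` -/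
theorem mem_closure_iff' [T1Space Z] {p q : XX Z} :
    p ∈ closure ({q} : Set (XX Z)) ↔ p.1 = q.1 ∧ p.2 ≤ q.2 := by
  constructor
  · intro h
    rw [mem_closure_iff] at h
    by_cases h1 : p.1 = q.1
    · refine ⟨h1, ?_⟩
      obtain ⟨r, hr, hrq⟩ := h _ (isOpen_nb (m := p.1) p.2 isOpen_univ trivial)
        (Or.inl ⟨rfl, le_rfl⟩)
      rw [Set.mem_singleton_iff] at hrq
      subst hrq
      rcases hr with hr | hr
      · exact hr.2
      · exact absurd h1.symm hr.2
    · exfalso
      obtain ⟨r, hr, hrq⟩ := h _ (isOpen_nb (m := p.1) p.2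
        (isClosed_singleton (x := q.1)).isOpen_compl h1) (Or.inl ⟨rfl, le_rfl⟩)
      rw [Set.mem_singleton_iff] at hrq
      subst hrq
      rcases hr with hr | hr
      · exact h1 hr.1.symm
      · exact hr.1 rfl
  · rintro ⟨h1, h2⟩
    rw [mem_closure_iff]
    intro O hO hp
    refine ⟨q, ?_, rfl⟩
    have : ((p.1, q.2) : XX Z) ∈ O := open_mono hO h2 hp
    rw [h1] at this
    exact this

instance [T1Space Z] : T0Space (XX Z) := by
  refine ⟨fun p q h => ?_⟩
  have h1 : p ∈ closure ({q} : Set (XX Z)) := h.specializes'.mem_closure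
  have h2 : q ∈ closure ({p} : Set (XX Z)) := h.specializes.mem_closure
  rw [mem_closure_iff'] at h1 h2
  exact Prod.ext h1.1 (le_antisymm h1.2 h2.2)

theorem saturated_iff {W : Type u} [TopologicalSpace W] {K : Set W} :
    Saturated K ↔ ∀ p ∈ K, ∀ q, p ∈ closure ({q} : Set W) → q ∈ K := by
  constructor
  · intro h p hp q hpq
    rw [h]
    rintro O ⟨hO, hKO⟩
    rw [mem_closure_iff] at hpq
    obtain ⟨r, hr, hrq⟩ := hpq O hO (hKO hp)
    rw [Set.mem_singleton_iff] at hrq
    rw [← hrq]
    exact hr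
  · intro h
    apply Set.Subset.antisymm
    · intro p hp O hO
      exact hO.2 hp
    · intro q hq
      by_contra hqK
      have : q ∈ (closure ({q} : Set W))ᶜ := by
        apply hq
        refine ⟨isClosed_closure.isOpen_compl, ?_⟩
        intro p hp hpq
        exact hqK (h p hp q hpq)
      exact this (subset_closure rfl)

theorem cs_upSet {W : Type u} [TopologicalSpace W] (p : W) : CS (upSet p) := by
  constructor
  · rw [isCompact_iff_finite_subcover]
    intro ι U hU hcov
    have hp : p ∈ upSet p := subset_closure rfl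
    obtain ⟨i, hi⟩ := Set.mem_iUnion.1 (hcov hp)
    refine ⟨{i}, fun q hq => ?_⟩
    refine Set.mem_biUnion (x := i) (by simp) ?_
    change p ∈ closure {q} at hq
    rw [mem_closure_iff] at hq
    obtain ⟨r, hr, hrq⟩ := hq _ (hU i) hi
    rw [Set.mem_singleton_iff] at hrq
    rw [← hrq]
    exact hr
  · rw [saturated_iff]
    intro q hq r hqr
    change p ∈ closure {q} at hq
    change p ∈ closure {r}
    exact closure_minimal (Set.singleton_subset_iff.2 hqr) isClosed_closure hq

/-- `X` is co-sober. -/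
theorem coSober_XX [T1Space Z] : CoSober (XX Z) := by
  classical
  intro K hK
  obtain ⟨⟨p, hp⟩, ⟨hKc, hKs⟩, hirr⟩ := hK
  rw [saturated_iff] at hKs
  have hex : ∃ n, ((p.1, n) : XX Z) ∈ K := ⟨p.2, hp⟩
  set f := Nat.find hex with hf
  have hfK : ((p.1, f) : XX Z) ∈ K := Nat.find_spec hex
  have hfmin : ∀ n, ((p.1, n) : XX Z) ∈ K → f ≤ n := fun n hn => Nat.find_min' hex hn
  have hf1 : ((p.1, f + 1) : XX Z) ∈ K := by
    exact hKs _ hfK _ (mem_closure_iff'.2 ⟨rfl, Nat.le_succ f⟩)
  set a : XX Z := (p.1, f) with ha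
  have hL : CS (K \ {a}) := by
    constructor
    · rw [isCompact_iff_finite_subcover]
      intro ι U hU hcov
      have hb : ((p.1, f + 1) : XX Z) ∈ K \ {a} := by
        refine ⟨hf1, ?_⟩
        intro h
        have : f + 1 = f := congrArg Prod.snd h
        omega
      obtain ⟨i₀, hi₀⟩ := Set.mem_iUnion.1 (hcov hb)
      have hins : IsOpen (insert a (U i₀)) := by
        refine ⟨?_, ?_⟩
        · rintro m n (h | h)
          · right
            have h1 : m = p.1 := congrArg Prod.fst h
            have h2 : n = f := congrArg Prod.snd h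
            rw [h1, h2]
            exact hi₀
          · right
            exact (hU i₀).1 m n h
        · rintro m n (h | h)
          · have h1 : m = p.1 := congrArg Prod.fst h
            obtain ⟨V, hV, hmV, h2⟩ := (hU i₀).2 _ _ hi₀
            rw [h1]
            exact ⟨V, hV, hmV, fun m' hm' hne l => Or.inr (h2 m' hm' hne l)⟩
          · obtain ⟨V, hV, hmV, h2⟩ := (hU i₀).2 _ _ h
            exact ⟨V, hV, hmV, fun m' hm' hne l => Or.inr (h2 m' hm' hne l)⟩
      rw [isCompact_iff_finite_subcover] at hKc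
      obtain ⟨t, ht⟩ := hKc (fun o : Option ι => o.elim (insert a (U i₀)) U)
        (by
          intro o
          cases o
          · exact hins
          · exact hU _)
        (by
          intro q hq
          by_cases hqa : q = a
          · exact Set.mem_iUnion.2 ⟨none, Or.inl hqa⟩
          · obtain ⟨i, hi⟩ := Set.mem_iUnion.1 (hcov ⟨hq, hqa⟩)
            exact Set.mem_iUnion.2 ⟨some i, hi⟩)
      refine ⟨t.image (fun o => o.getD i₀), ?_⟩
      intro q hq
      obtain ⟨o, ho⟩ := Set.mem_iUnion.1 (ht hq.1)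
      obtain ⟨hot, hqo⟩ := Set.mem_iUnion.1 ho
      cases o with
      | none =>
        refine Set.mem_biUnion (x := i₀) ?_ ?_
        · simp only [Finset.coe_image, Set.mem_image, Finset.mem_coe]
          exact ⟨none, hot, rfl⟩
        · rcases hqo with h | h
          · exact absurd h hq.2
          · exact h
      | some i =>
        refine Set.mem_biUnion (x := i) ?_ hqo
        simp only [Finset.coe_image, Set.mem_image, Finset.mem_coe]
        exact ⟨some i, hot, rfl⟩
    · rw [saturated_iff]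
      rintro q ⟨hqK, hqa⟩ r hqr
      refine ⟨hKs q hqK r hqr, ?_⟩
      intro hra
      rw [Set.mem_singleton_iff] at hra
      rw [hra, mem_closure_iff'] at hqr
      apply hqa
      have h1 : q.1 = p.1 := hqr.1
      have h2 : q.2 ≤ f := hqr.2
      have h3 : f ≤ q.2 := hfmin q.2 (by rw [← h1]; exact hqK)
      exact Prod.ext h1 (le_antisymm h2 h3)
  have hun : (K \ {a}) ∪ upSet a = K := by
    apply Set.Subset.antisymm
    · rintro q (hq | hq)
      · exact hq.1
      · exact hKs a hfK q hq
    · intro q hq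
      by_cases hqa : q = a
      · right
        rw [hqa]
        exact subset_closure rfl
      · exact Or.inl ⟨hq, hqa⟩
  rcases hirr _ _ hL (cs_upSet a) hun with h | h
  · exfalso
    have : a ∈ K \ {a} := by
      rw [h]
      exact hfK
    exact this.2 rfl
  · exact ⟨a, h.symm⟩

/-- the kernel operator -/
def kk (p : XX Z) : XX Z := (p.1, 0)

theorem continuous_kk : Continuous (kk : XX Z → XX Z) := by
  rw [continuous_def]
  intro O hO
  refine ⟨?_, ?_⟩
  · intro m n h
    exact h
  · intro m n h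
    obtain ⟨U, hU, hmU, h1⟩ := hO.2 m 0 h
    exact ⟨U, hU, hmU, fun m' hm' hne l => h1 m' hm' hne 0⟩

/-- the embedding of `Z` onto the image of the kernel operator -/
def emb (z : Z) : Set.range (kk : XX Z → XX Z) := ⟨(z, 0), (z, 0), rfl⟩

theorem continuous_emb : Continuous (emb : Z → Set.range (kk : XX Z → XX Z)) := by
  refine Continuous.subtype_mk ?_ _
  refine continuous_def.2 ?_
  intro O hO
  rw [isOpen_iff_forall_mem_open]
  intro z hz
  obtain ⟨U, hU, hzU, h1⟩ := hO.2 z 0 hz
  refine ⟨U, fun z' hz' => ?_, hU, hzU⟩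
  by_cases h : z' = z
  · rw [h]
    exact hz
  · exact h1 z' hz' h 0

/-- the inverse of `emb` -/
def pr (p : Set.range (kk : XX Z → XX Z)) : Z := p.1.1

theorem continuous_pr [T1Space Z] : Continuous (pr : Set.range (kk : XX Z → XX Z) → Z) := by
  have : Continuous (fun p : XX Z => p.1) := by
    rw [continuous_def]
    intro U hU
    refine ⟨fun m n h => h, fun m n h => ⟨U, hU, h, fun m' hm' _ l => hm'⟩⟩
  exact this.comp continuous_subtype_val

/-- the image of the kernel operator is homeomorphic to `Z` -/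
def homeo [T1Space Z] : Z ≃ₜ Set.range (kk : XX Z → XX Z) where
  toFun := emb
  invFun := pr
  left_inv _ := rfl
  right_inv := by
    rintro ⟨_, q, rfl⟩
    rfl
  continuous_toFun := continuous_emb
  continuous_invFun := continuous_pr

end X

theorem not_coSober_Y : ¬ CoSober Y := by
  intro h
  have hsat : ∀ K : Set Y, Saturated K := by
    intro K
    rw [saturated_iff]
    intro p hp q hpq
    rw [closure_singleton, Set.mem_singleton_iff] at hpq
    rw [← hpq]
    exact hp
  obtain ⟨x, hx⟩ := h Set.univ ⟨⟨(0 : ℕ), trivial⟩, ⟨compact_Y, hsat _⟩, by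
    intro K₁ K₂ h1 h2 hun
    by_contra hcon
    rw [not_or] at hcon
    have h1' := (closed_of_compact h1.1).isOpen_compl
    have h2' := (closed_of_compact h2.1).isOpen_compl
    obtain ⟨z, hz1, hz2⟩ := hyperconnected h1' h2'
      (Set.nonempty_compl.2 hcon.1) (Set.nonempty_compl.2 hcon.2)
    have : z ∈ K₁ ∪ K₂ := by
      rw [hun]
      trivial
    rcases this with h3 | h3
    · exact hz1 h3
    · exact hz2 h3⟩
  have hmem : ∀ y : Y, x = y := by
    intro y
    have : y ∈ upSet x := by
      rw [← hx]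
      trivial
    change x ∈ closure {y} at this
    rw [closure_singleton, Set.mem_singleton_iff] at this
    exact this
  have h01 : (0 : ℕ) = (1 : ℕ) := (hmem (0 : ℕ)).symm.trans (hmem (1 : ℕ))
  exact absurd h01 (by norm_num)

theorem coSober_of_homeo {A B : Type} [TopologicalSpace A] [TopologicalSpace B] (e : A ≃ₜ B)
    (h : CoSober B) : CoSober A := by
  have hcl : ∀ a b : A, a ∈ closure ({b} : Set A) ↔ e a ∈ closure ({e b} : Set B) := by
    intro a b
    have h1 : e '' closure ({b} : Set A) = closure (e '' {b}) := e.image_closure _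
    rw [Set.image_singleton] at h1
    rw [← h1]
    constructor
    · intro hh
      exact ⟨a, hh, rfl⟩
    · rintro ⟨a', ha', haa⟩
      rw [← e.injective haa]
      exact ha'
  have hcs : ∀ K : Set A, CS K → CS (e '' K) := by
    intro K hK
    refine ⟨hK.1.image e.continuous, ?_⟩
    rw [saturated_iff]
    rintro _ ⟨a, ha, rfl⟩ b hb
    have hb' : b = e (e.symm b) := (e.apply_symm_apply b).symm
    rw [hb', ← hcl] at hb
    exact ⟨e.symm b, (saturated_iff.1 hK.2) a ha _ hb, e.apply_symm_apply b⟩
  have hcs' : ∀ K : Set B, CS K → CS (e ⁻¹' K) := by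
    intro K hK
    refine ⟨e.isCompact_preimage.2 hK.1, ?_⟩
    rw [saturated_iff]
    intro a ha b hb
    rw [hcl] at hb
    exact (saturated_iff.1 hK.2) _ ha _ hb
  intro G hG
  obtain ⟨b, hb⟩ := h (e '' G) ⟨hG.1.image _, hcs _ hG.2.1, by
    intro K₁ K₂ h1 h2 hun
    have : e ⁻¹' K₁ ∪ e ⁻¹' K₂ = G := by
      rw [← Set.preimage_union, hun, Set.preimage_image_eq _ e.injective]
    rcases hG.2.2 _ _ (hcs' _ h1) (hcs' _ h2) this with h3 | h3
    · left
      rw [← h3, Set.image_preimage_eq _ e.surjective]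
    · right
      rw [← h3, Set.image_preimage_eq _ e.surjective]⟩
  refine ⟨e.symm b, ?_⟩
  ext a
  have h1 : a ∈ G ↔ e a ∈ e '' G := by
    constructor
    · intro hh
      exact ⟨a, hh, rfl⟩
    · rintro ⟨a', ha', haa⟩
      rw [← e.injective haa]
      exact ha'
  rw [h1, hb]
  change b ∈ closure {e a} ↔ e.symm b ∈ closure {a}
  rw [hcl, e.apply_symm_apply]

/-- **Disproof of Q1.**  There are a `T₀` co-sober space `X` and a continuous kernel operator
`k : X → X` for the specialization order (`k x ∈ cl {x}`, `k (k x) = k x`) whose image, with the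
subspace topology, is not co-sober. -/
theorem result : ∃ (X : Type) (_ : TopologicalSpace X) (k : X → X),
    T0Space X ∧ CoSober X ∧ Continuous k ∧ (∀ x, k x ∈ closure {x}) ∧
      (∀ x, k (k x) = k x) ∧ ¬ CoSober (Set.range k) := by
  refine ⟨XX Y, inferInstance, kk, inferInstance, coSober_XX, continuous_kk, ?_, ?_, ?_⟩
  · intro x
    rw [mem_closure_iff']
    exact ⟨rfl, Nat.zero_le _⟩
  · intro x
    rfl
  · intro h
    exact not_coSober_Y (coSober_of_homeo homeo h)

end Pool.Agent.Results.MP_1ae613_gt.KernelImage
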